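import Pool.Agent.helper53.DC.SpecH

/-!
# Project dc, module H6: disjoint walls which are not separated by a long chain are close
-/

set_option autoImplicit false

namespace Pool.Agent.helper92.DC

open Pool.Agent.helper53.DC

section

variable {B W : Type} [Group W] {M : CoxeterMatrix B} (cs : CoxeterSystem M W)

theorem H6_sep_comm (v : Wall cs) (x y : W) : (cw cs).Sep v x y ↔ (cw cs).Sep v y x := by
  unfold WS.Sep
  rw [not_iff_not]
  exact Iff.comm

/-- the wall `r` does not separate `y` from a nearest chamber of its carrier -/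
theorem H6_near (h3 : A3_stmt) (h5 : A5_stmt) (r : Wall cs) (x y : W) (hx : x ∈ Car cs r)
    (hmin : ∀ z ∈ Car cs r, dd cs y x ≤ dd cs y z) : ¬ (cw cs).Sep r x y := by
  intro hs
  obtain ⟨i, hi⟩ := hx
  have hrr : r.1 * r.1 = 1 := by
    obtain ⟨w, j, hw⟩ := r.2
    rw [hw, show w * cs.simple j * w⁻¹ * (w * cs.simple j * w⁻¹) =
      w * (cs.simple j * cs.simple j) * w⁻¹ by group, cs.simple_mul_simple_self]
    group
  have hwall : wall cs x i = r := by
    apply Subtype.ext
    rw [wall_val, ← hi]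
    group
  -- the neighbour
  have hcar : x * cs.simple i ∈ Car cs r := by
    refine ⟨i, ?_⟩
    rw [← hi, ← mul_assoc, hrr, one_mul, hi, mul_assoc, cs.simple_mul_simple_self, mul_one]
  have hA : ∀ v, (cw cs).Sep v x (x * cs.simple i) ↔ v = r := by
    intro v
    rw [h3 cs v x i, hwall]
  have hset : {v | (cw cs).Sep v (x * cs.simple i) y} = {v | (cw cs).Sep v x y} \ {r} := by
    ext v
    have h1 := hA v
    simp only [Set.mem_setOf_eq, Set.mem_diff, Set.mem_singleton_iff]
    by_cases hv : v = r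
    · subst hv
      have h2 := h1.2 rfl
      unfold WS.Sep at h2 hs ⊢
      tauto
    · have h2 : ¬ (cw cs).Sep v x (x * cs.simple i) := fun h => hv (h1.1 h)
      unfold WS.Sep at h2 ⊢
      tauto
  have h6 := (h5 cs x y).2
  have h7 := (h5 cs (x * cs.simple i) y).2
  rw [hset, Set.ncard_sdiff_singleton_of_mem (show r ∈ {v | (cw cs).Sep v x y} from hs), h6] at h7
  have h8 : 0 < dd cs x y := by
    rw [← h6]
    exact (Set.ncard_pos (h5 cs x y).1).2 ⟨r, hs⟩
  have h9 := hmin _ hcar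
  rw [dd_comm cs y x, dd_comm cs y (x * cs.simple i)] at h9
  omega

/-- a wall which separates `x ∈ Car r` and `y ∈ Car r'` and crosses neither `r` nor `r'` is between -/
theorem H6_btw (h22 : A22_stmt) (h1 : W1_stmt) (h6 : A6_stmt) (r r' v : Wall cs) (x y : W)
    (hx : x ∈ Car cs r) (hy : y ∈ Car cs r') (hs : (cw cs).Sep v x y) (hr : r ≠ v) (hr' : r' ≠ v)
    (hc : ¬ (cw cs).Cross v r) (hc' : ¬ (cw cs).Cross v r') : (cw cs).Btw v r r' := by
  obtain ⟨hW1, hW2, -, -, hW5, hW6, -⟩ := h1 (cw cs) (h6 cs)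
  have hon : ∀ u, u ≠ v → ¬ (cw cs).Cross v u → ∃ b, (cw cs).On u v b := by
    intro u hu hcu
    rcases hW5 u v with h | h | h
    · exact absurd h hu
    · exact absurd (hW2 _ _ h) hcu
    · exact hW6 _ _ h
  obtain ⟨b, hb⟩ := hon r hr hc
  obtain ⟨b', hb'⟩ := hon r' hr' hc'
  have hxb : x ∈ (cw cs).hs v b := (h22 cs r v b hr).1 hb hx
  have hyb : y ∈ (cw cs).hs v b' := (h22 cs r' v b' hr').1 hb' hy
  have hne : b' = !b := by
    unfold WS.Sep at hs
    change (x ∈ (cw cs).H v ↔ b = true) at hxb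
    change (y ∈ (cw cs).H v ↔ b' = true) at hyb
    cases b <;> cases b' <;> simp_all
  rw [hne] at hb'
  exact ⟨b, hb, hb'⟩

end

theorem H6 (h6a : H6a_stmt) (h5b : H5b_stmt) (h4 : W4_stmt) (h5 : A5_stmt) (h22 : A22_stmt)
    (h3 : A3_stmt) (h6 : A6_stmt) (h1 : W1_stmt) : H6_stmt := by
  classical
  intro B W _ _ M cs δ hδ m
  obtain ⟨c7, hc7⟩ := h6a cs δ hδ
  obtain ⟨D, hD⟩ := h5b cs δ hδ
  refine ⟨1 + 2 * (m * D + 2 * c7), fun r r' hdis hch => ?_⟩
  -- minimal distance of the carriers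
  have hne : ∀ u : Wall cs, ∃ x, x ∈ Car cs u := by
    intro u
    obtain ⟨w, j, hw⟩ := u.2
    refine ⟨w, j, ?_⟩
    rw [hw]
    group
  have hex : ∃ n x y, x ∈ Car cs r ∧ y ∈ Car cs r' ∧ dd cs x y = n := by
    obtain ⟨x, hx⟩ := hne r
    obtain ⟨y, hy⟩ := hne r'
    exact ⟨_, x, y, hx, hy, rfl⟩
  obtain ⟨x, y, hx, hy, hxy⟩ := Nat.find_spec hex
  have hminp : ∀ x' ∈ Car cs r, ∀ y' ∈ Car cs r', dd cs x y ≤ dd cs x' y' := by
    intro x' hx' y' hy'
    rw [hxy]
    exact Nat.find_min' hex ⟨x', y', hx', hy', rfl⟩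
  have hmx : ∀ z ∈ Car cs r, dd cs y x ≤ dd cs y z := by
    intro z hz
    rw [dd_comm cs y x, dd_comm cs y z]
    exact hminp z hz y hy
  have hmy : ∀ z ∈ Car cs r', dd cs x y ≤ dd cs x z := fun z hz => hminp x hx z hz
  have hnr : ¬ (cw cs).Sep r x y := H6_near cs h3 h5 r x y hx hmx
  have hnr' : ¬ (cw cs).Sep r' x y := by
    rw [H6_sep_comm]
    exact H6_near cs h3 h5 r' y x hy hmy
  -- the walls separating `x` and `y`
  set S : Finset (Wall cs) := (h5 cs x y).1.toFinset with hS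
  have hSmem : ∀ v, v ∈ S ↔ (cw cs).Sep v x y := by
    intro v
    rw [hS, Set.Finite.mem_toFinset]
    rfl
  have hScard : S.card = dd cs x y := by
    have h0 := Set.ncard_eq_toFinset_card _ (h5 cs x y).1
    exact h0.symm.trans (h5 cs x y).2
  set F1 := S.filter fun v => (cw cs).Cross v r with hF1
  set F2 := S.filter fun v => (cw cs).Cross v r' with hF2
  set F := S.filter fun v => ¬ (cw cs).Cross v r ∧ ¬ (cw cs).Cross v r' with hF
  have hc1 : F1.card ≤ c7 := hc7 r x y hx hmx F1 fun v hv => by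
    rw [hF1, Finset.mem_filter] at hv
    exact ⟨(hSmem v).1 hv.1, hv.2⟩
  have hc2 : F2.card ≤ c7 := hc7 r' y x hy hmy F2 fun v hv => by
    rw [hF2, Finset.mem_filter] at hv
    exact ⟨(H6_sep_comm cs v x y).1 ((hSmem v).1 hv.1), hv.2⟩
  have hsub : S ⊆ F1 ∪ F2 ∪ F := by
    intro v hv
    simp only [hF1, hF2, hF, Finset.mem_union, Finset.mem_filter]
    tauto
  have hcard : S.card ≤ F1.card + F2.card + F.card := by
    refine (Finset.card_le_card hsub).trans ?_
    refine (Finset.card_union_le _ _).trans ?_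
    have := Finset.card_union_le F1 F2
    omega
  have hFc : F.card ≤ m * D := by
    by_contra hlt
    push Not at hlt
    rcases Nat.eq_zero_or_pos m with hm | hm
    · refine hch ⟨fun _ => r, fun i hi => by omega, fun i j _ hj => by omega⟩
    · have h10 : (m - 1) * D < F.card := by
        refine lt_of_le_of_lt (Nat.mul_le_mul_right D (Nat.sub_le m 1)) hlt
      obtain ⟨v, hv, -⟩ := h4 (cw cs) (h6 cs) r r' D (m - 1) F (fun v hv => by
        rw [hF, Finset.mem_filter] at hv
        have hvs := (hSmem v).1 hv.1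
        refine H6_btw cs h22 h1 h6 r r' v x y hx hy hvs ?_ ?_ hv.2.1 hv.2.2
        · rintro rfl
          exact hnr hvs
        · rintro rfl
          exact hnr' hvs) (fun E _ hE => hD E hE) h10
      rw [Nat.sub_add_cancel hm] at hv
      exact hch ⟨v, hv⟩
  refine ⟨x, ?_, ?_⟩
  · rw [(mem_Car cs r x).1 hx]
    omega
  · have h11 := DD_le cs r' x y
    rw [(mem_Car cs r' y).1 hy] at h11
    omega

end Pool.Agent.helper92.DC
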