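import Mathlib
import Pool.Agent.helper58.DC.Spec3

/-!
# Part FP of project dq (MP_baa4d7_al)

`b ⊥` for the iterated wreath product `W q k`, as a consequence of MPQ, FR, OZ and TF.
-/

set_option autoImplicit false

namespace Pool.Agent.helper92.DC

open Pool.Agent.helper58.DC Polynomial

/-- the polynomial over `ℚ` giving the number of regular orbits -/
noncomputable def PQ (q : ℕ) : ℕ → Polynomial ℚ
  | 0 => X
  | k + 1 => C ((q : ℚ)⁻¹) * (PQ q k ^ q - PQ q k)

theorem PQ_eval (hOZ : OZ_stmt) (q : ℕ) (hq : q.Prime) (v : ℤ) (k : ℕ) :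
    (PQ q k).eval (v : ℚ) = (ON q v k : ℚ) := by
  induction k with
  | zero => simp [PQ, ON]
  | succ k ih =>
    have h := (hOZ q hq v).1 k
    have hq0 : (q : ℚ) ≠ 0 := by exact_mod_cast hq.ne_zero
    have h' : (q : ℚ) * (ON q v (k + 1) : ℚ) = (ON q v k : ℚ) ^ q - (ON q v k : ℚ) := by
      exact_mod_cast h
    simp only [PQ, eval_mul, eval_C, eval_sub, eval_pow, ih]
    rw [← h', ← mul_assoc, inv_mul_cancel₀ hq0, one_mul]

theorem FP (hMPQ : MPQ_stmt) (hFR : FR_stmt) (hOZ : OZ_stmt) (hTF : TF_stmt) : FP_stmt := by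
  intro q k hq b v hb
  obtain ⟨hT, -, hW, -, -⟩ := hTF q k hq
  obtain ⟨F, hF1, hF2⟩ := hMPQ (W q k) (TT q k)
  rw [hF2 b v hb]
  have key : F.map (Int.castRingHom ℚ) = C (Nat.card (W q k) : ℚ) * PQ q k := by
    apply Polynomial.eq_of_infinite_eval_eq
    refine Set.Infinite.mono (s := Set.range (fun n : ℕ => (n : ℚ))) ?_
      (Set.infinite_range_of_injective Nat.cast_injective)
    rintro _ ⟨x, rfl⟩
    simp only [Set.mem_setOf_eq, eval_mul, eval_C]
    have h1 := hF1 x
    rw [hFR q k x hq] at h1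
    have h2 := PQ_eval hOZ q hq (x : ℤ) k
    rw [Int.cast_natCast] at h2
    rw [h2]
    have h3 : (F.map (Int.castRingHom ℚ)).eval ((Int.castRingHom ℚ) (x : ℤ)) =
        (Int.castRingHom ℚ) (F.eval (x : ℤ)) := by
      rw [Polynomial.eval_map, Polynomial.eval₂_hom]
    rw [h1] at h3
    simpa using h3
  have h4 : (F.map (Int.castRingHom ℚ)).eval ((Int.castRingHom ℚ) v) =
      (Int.castRingHom ℚ) (F.eval v) := by
    rw [Polynomial.eval_map, Polynomial.eval₂_hom]
  rw [key] at h4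
  have h5 := PQ_eval hOZ q hq v k
  have h6 : ((F.eval v : ℤ) : ℚ) = ((Nat.card (W q k) * ON q v k : ℤ) : ℚ) := by
    have : (Int.castRingHom ℚ) v = (v : ℚ) := rfl
    rw [this, eval_mul, eval_C, h5] at h4
    push_cast
    exact h4.symm
  exact_mod_cast h6

end Pool.Agent.helper92.DC
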